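import Mathlib.Topology.Constructions
import Mathlib.Algebra.Group.Action.Basic

set_option autoImplicit false

namespace Pool.Agent.Work.MP_3e0647_al

/-- Ordered triples of pairwise distinct points of `M`; as a subtype of `M × M × M` it carries
the subspace topology of the product topology. -/
abbrev Triple (M : Type) : Type :=
  {p : M × M × M // p.1 ≠ p.2.1 ∧ p.1 ≠ p.2.2 ∧ p.2.1 ≠ p.2.2}

/-- The coordinatewise action of `G` on triples of pairwise distinct points. -/
def act {G M : Type} [Group G] [MulAction G M] (g : G) (t : Triple M) : Triple M :=
  ⟨(g • t.1.1, g • t.1.2.1, g • t.1.2.2),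
    fun h => t.2.1 (MulAction.injective g h),
    fun h => t.2.2.1 (MulAction.injective g h),
    fun h => t.2.2.2 (MulAction.injective g h)⟩

end Pool.Agent.Work.MP_3e0647_al
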