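import Pool.Agent.Work.MP_3e0647_al.Twist
import Mathlib.RingTheory.LaurentSeries
import Mathlib.LinearAlgebra.FreeModule.ModN
import Mathlib.FieldTheory.Finite.GaloisField

/-! The field of Laurent series over the field with four elements. -/

set_option autoImplicit false

namespace Pool.Agent.Work.MP_3e0647_al

open Filter Topology WithZero LaurentSeries

section Char

variable {K : Type} [Field K] (v : Valuation K ℤᵐ⁰)

theorem val_mul_sub_one_lt {x y : K} {c : ℤᵐ⁰} (hx : v (x - 1) ≤ 1) (hy : v (y - 1) < c) :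
    v ((x - 1) * (y - 1) + (y - 1)) < c := by
  refine v.map_add_lt ?_ hy
  rw [map_mul]
  exact lt_of_le_of_lt (mul_le_of_le_one_left' hx) hy

theorem val_prod_sub_one_lt (n : ℕ → K) (T : Finset ℕ) {c : ℤᵐ⁰} (hc0 : 0 < c) (hc : c ≤ 1)
    (h : ∀ k ∈ T, v (n k - 1) < c) : v (∏ k ∈ T, n k - 1) < c := by
  classical
  induction T using Finset.induction_on with
  | empty => simpa using hc0
  | insert m T hm ih =>
    rw [Finset.prod_insert hm]
    have h1 := h m (Finset.mem_insert_self _ _)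
    have h2 := ih fun k hk => h k (Finset.mem_insert_of_mem hk)
    have : n m * ∏ k ∈ T, n k - 1 =
        (n m - 1) + ((n m - 1) * (∏ k ∈ T, n k - 1) + (∏ k ∈ T, n k - 1)) := by ring
    rw [this]
    exact v.map_add_lt h1 (val_mul_sub_one_lt v (h1.le.trans hc) h2)

theorem prod_not_sq [CharP K 2] (n : ℕ → K) (hn : ∀ k, v (n k - 1) = exp (-(2 * (k : ℤ) + 1)))
    (T : Finset ℕ) (hT : T.Nonempty) (y : K) : ∏ k ∈ T, n k ≠ y * y := by
  classical
  intro hy
  let m := T.min' hT
  have hm : m ∈ T := T.min'_mem hT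
  have hle : (exp (-(2 * (m : ℤ) + 1)) : ℤᵐ⁰) ≤ 1 := by
    rw [← exp_zero, exp_le_exp]; omega
  have h1 : v (∏ k ∈ T.erase m, n k - 1) < exp (-(2 * (m : ℤ) + 1)) := by
    refine val_prod_sub_one_lt v n _ exp_pos hle ?_
    intro k hk
    have h2 := T.min'_le k (Finset.mem_of_mem_erase hk)
    have h3 := Finset.ne_of_mem_erase hk
    rw [hn, exp_lt_exp]
    omega
  have h2 : v (∏ k ∈ T, n k - 1) = exp (-(2 * (m : ℤ) + 1)) := by
    rw [← Finset.mul_prod_erase T n hm]
    have : n m * ∏ k ∈ T.erase m, n k - 1 =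
        (n m - 1) + ((n m - 1) * (∏ k ∈ T.erase m, n k - 1) + (∏ k ∈ T.erase m, n k - 1)) := by
      ring
    rw [this, v.map_add_eq_of_lt_left, hn]
    rw [hn]
    exact val_mul_sub_one_lt v (by rw [hn]; exact hle) h1
  have h3 : y * y - 1 = (y - 1) * (y - 1) := by
    have h2' : (2 : K) = 0 := CharP.cast_eq_zero K 2
    linear_combination (y - 1) * h2'
  rw [hy, h3, map_mul] at h2
  have h4 : v (y - 1) ≠ 0 := by
    intro h
    rw [h, zero_mul] at h2
    exact exp_ne_zero h2.symm
  rw [← exp_log h4, ← exp_add, exp_inj] at h2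
  omega

theorem exists_char [CharP K 2] (n : ℕ → Kˣ)
    (hn : ∀ k, v ((n k : K) - 1) = exp (-(2 * (k : ℤ) + 1))) :
    ∃ χ : Kˣ →* Multiplicative (ZMod 2), ∀ k, χ (n k) ≠ 1 := by
  classical
  let q : Additive Kˣ →+ ModN (Additive Kˣ) 2 := ModN.mkQ 2
  let w : ℕ → ModN (Additive Kˣ) 2 := fun k => q (Additive.ofMul (n k))
  have hw : LinearIndependent (ZMod 2) w := by
    rw [linearIndependent_iff']
    intro s g hg i hi
    by_contra hne
    have h01 : ∀ a : ZMod 2, a = 0 ∨ a = 1 := by decide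
    let T := s.filter fun k => g k = 1
    have hT : T.Nonempty := ⟨i, Finset.mem_filter.mpr ⟨hi, (h01 _).resolve_left hne⟩⟩
    have h1 : ∑ k ∈ T, w k = 0 := by
      rw [← hg, Finset.sum_filter]
      refine Finset.sum_congr rfl fun k _ => ?_
      rcases h01 (g k) with h | h
      · simp [h]
      · simp [h]
    have h2 : q (∑ k ∈ T, Additive.ofMul (n k)) = 0 := by
      rw [map_sum]; exact h1
    have h3 : (∑ k ∈ T, Additive.ofMul (n k)) ∈
        LinearMap.range (LinearMap.lsmul ℤ (Additive Kˣ) (2 : ℕ)) :=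
      (Submodule.Quotient.mk_eq_zero _).mp h2
    obtain ⟨y, hy⟩ := h3
    apply prod_not_sq v (fun k => (n k : K)) hn T hT (y.toMul : Kˣ)
    have h4 : (∏ k ∈ T, n k) = y.toMul * y.toMul := by
      have := congrArg Additive.toMul hy
      rw [toMul_sum] at this
      simp only [toMul_ofMul] at this
      rw [← this]
      simp [two_zsmul]
    have := congrArg (Units.val) h4
    simpa using this
  obtain ⟨g, hg⟩ := LinearMap.exists_leftInverse_of_injective
    (Finsupp.linearCombination (ZMod 2) w) (LinearMap.ker_eq_bot.mpr hw)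
  let f : ModN (Additive Kˣ) 2 →ₗ[ZMod 2] ZMod 2 :=
    (Finsupp.linearCombination (ZMod 2) fun _ : ℕ => (1 : ZMod 2)).comp g
  have hf : ∀ k, f (w k) = 1 := by
    intro k
    have h1 : g (w k) = Finsupp.single k 1 := by
      have := LinearMap.congr_fun hg (Finsupp.single k 1)
      simpa using this
    simp [f, h1]
  refine ⟨AddMonoidHom.toMultiplicativeRight (f.toAddMonoidHom.comp q), fun k => ?_⟩
  have := hf k
  intro h
  have h2 : f (w k) = 0 := h
  rw [h2] at this
  exact zero_ne_one this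

end Char

section Laurent

variable (F : Type) [Field F]

/-- closed balls around zero -/
def ball (d : ℤ) : Set F⸨X⸩ := {f | Valued.v f ≤ (exp (-d) : ℤᵐ⁰)}

variable {F}

theorem mem_ball_iff {d : ℤ} {f : F⸨X⸩} : f ∈ ball F d ↔ ∀ n : ℤ, n < d → f.coeff n = 0 :=
  valuation_le_iff_coeff_lt_eq_zero F

theorem basis_zero : (𝓝 (0 : F⸨X⸩)).HasBasis (fun _ : ℤ => True) (ball F) := by
  rw [Filter.hasBasis_iff]
  intro s
  rw [Valued.mem_nhds_zero]
  constructor
  · rintro ⟨γ, hγ⟩
    have h0 : MonoidWithZeroHom.ValueGroup₀.embedding γ.1 ≠ (0 : ℤᵐ⁰) := by simp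
    refine ⟨-log (MonoidWithZeroHom.ValueGroup₀.embedding γ.1) + 1, trivial, fun x hx => hγ ?_⟩
    simp only [Set.mem_ofPred_eq, Valuation.restrict_lt_iff_lt_embedding]
    refine lt_of_le_of_lt hx ?_
    conv_rhs => rw [← exp_log h0]
    rw [exp_lt_exp]
    omega
  · rintro ⟨d, -, hd⟩
    have h1 : Valued.v (HahnSeries.single d (1 : F) : F⸨X⸩) = exp (-d) :=
      valuation_single_zpow F d
    have h2 : Valued.v.restrict (HahnSeries.single d (1 : F) : F⸨X⸩) ≠ 0 := by simp
    refine ⟨Units.mk0 _ h2, fun x hx => hd ?_⟩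
    simp only [Units.val_mk0, Set.mem_ofPred_eq, Valuation.restrict_lt_iff, h1] at hx
    exact hx.le

/-- balls as subgroups -/
def ballSub (d : ℤ) : AddSubgroup F⸨X⸩ where
  carrier := ball F d
  zero_mem' := by simp [ball]
  add_mem' := fun {a b} ha hb => by
    simp only [ball, Set.mem_ofPred_eq] at ha hb ⊢
    exact Valuation.map_add_le _ ha hb
  neg_mem' := fun ha => by simpa [ball] using ha

theorem coe_ballSub (d : ℤ) : (ballSub (F := F) d : Set F⸨X⸩) = ball F d := rfl

theorem isOpen_ball' (d : ℤ) : IsOpen (ball F d) := by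
  rw [← coe_ballSub]
  refine (ballSub (F := F) d).isOpen_of_mem_nhds (g := 0) ?_
  rw [coe_ballSub]
  exact basis_zero.mem_of_mem (i := d) trivial

theorem isClosed_ball' (d : ℤ) : IsClosed (ball F d) := by
  rw [← coe_ballSub]
  refine (ballSub (F := F) d).isClosed_of_isOpen ?_
  rw [coe_ballSub]
  exact isOpen_ball' d

theorem isCompact_ball [Finite F] (d : ℤ) : IsCompact (ball F d) := by
  classical
  refine TotallyBounded.isCompact_of_isClosed ?_ (isClosed_ball' d)
  have hb : (uniformity F⸨X⸩).HasBasis (fun _ : ℤ => True)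
      fun e => {p : F⸨X⸩ × F⸨X⸩ | p.2 - p.1 ∈ ball F e} := by
    rw [uniformity_eq_comap_nhds_zero]
    exact basis_zero.comap _
  rw [hb.totallyBounded_iff]
  intro e _
  let c : F⸨X⸩ → (Finset.Ico d e → F) := fun f n => f.coeff n
  let r : (Finset.Ico d e → F) → F⸨X⸩ := fun y =>
    if h : ∃ f ∈ ball F d, c f = y then h.choose else 0
  refine ⟨Set.range r, Set.finite_range r, fun f hf => ?_⟩
  have h : ∃ g ∈ ball F d, c g = c f := ⟨f, hf, rfl⟩
  have hr : r (c f) = h.choose := dif_pos h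
  obtain ⟨h1, h2⟩ := h.choose_spec
  simp only [Set.mem_iUnion, Set.mem_ofPred_eq]
  refine ⟨r (c f), Set.mem_range_self _, ?_⟩
  rw [hr, mem_ball_iff]
  intro n hn
  rw [HahnSeries.coeff_sub]
  by_cases hd : n < d
  · rw [mem_ball_iff.mp h1 n hd, mem_ball_iff.mp hf n hd, sub_zero]
  · have := congrFun h2 ⟨n, Finset.mem_Ico.mpr ⟨by omega, hn⟩⟩
    simp only [c] at this
    rw [this, sub_self]

theorem weaklyLocallyCompact [Finite F] : WeaklyLocallyCompactSpace F⸨X⸩ :=
  haveI := (isCompact_ball (F := F) 0).locallyCompactSpace_of_mem_nhds_of_addGroup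
    (basis_zero.mem_of_mem (i := 0) trivial)
  inferInstance

theorem ball_mono {d e : ℤ} (h : d ≤ e) : ball F e ⊆ ball F d := fun x hx => by
  rw [mem_ball_iff] at hx ⊢
  exact fun n hn => hx n (by omega)

theorem exists_ball (x : F⸨X⸩) : ∃ d, x ∈ ball F d := by
  by_cases h : Valued.v x = (0 : ℤᵐ⁰)
  · exact ⟨0, by simp [ball, h]⟩
  · exact ⟨-log (Valued.v x), by simp [ball, exp_log h]⟩

theorem compact_sub_ball {C : Set F⸨X⸩} (hC : IsCompact C) : ∃ d, C ⊆ ball F d := by
  refine hC.elim_directed_cover (ball F) isOpen_ball' (fun x _ => Set.mem_iUnion.mpr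
    (exists_ball x)) ?_
  intro a b
  exact ⟨min a b, ball_mono (min_le_left _ _), ball_mono (min_le_right _ _)⟩

theorem tendsto_inv_cocompact [Finite F] :
    Tendsto (fun x : F⸨X⸩ => x⁻¹) (cocompact _) (𝓝 0) := by
  rw [basis_zero.tendsto_right_iff]
  intro d _
  filter_upwards [(isCompact_ball (F := F) (-d)).compl_mem_cocompact] with x hx
  simp only [ball, Set.mem_compl_iff, Set.mem_ofPred_eq, not_le, neg_neg] at hx ⊢
  rw [map_inv₀, exp_neg]
  exact (inv_strictAnti₀ exp_pos hx).le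

theorem tendsto_inv_zero : Tendsto (fun x : F⸨X⸩ => x⁻¹) (𝓝[≠] 0) (cocompact _) := by
  rw [hasBasis_cocompact.tendsto_right_iff]
  intro C hC
  obtain ⟨d, hd⟩ := compact_sub_ball hC
  filter_upwards [self_mem_nhdsWithin,
    mem_nhdsWithin_of_mem_nhds (basis_zero.mem_of_mem (i := -d + 1) trivial)] with x hx0 hx hxC
  have h1 := hd hxC
  have h0 : Valued.v x ≠ (0 : ℤᵐ⁰) := by simpa using hx0
  simp only [ball, Set.mem_ofPred_eq, map_inv₀] at hx h1
  rw [← exp_log h0, ← exp_neg, exp_le_exp] at h1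
  rw [← exp_log h0, exp_le_exp] at hx
  omega

/-- coefficientwise application of a ring endomorphism -/
noncomputable def cmap (s : F →+* F) : F⸨X⸩ →+* F⸨X⸩ where
  toFun f := f.map s
  map_one' := HahnSeries.map_one s.toMonoidWithZeroHom
  map_mul' _ _ := HahnSeries.map_mul s.toNonUnitalRingHom
  map_zero' := HahnSeries.map_zero s.toZeroHom
  map_add' _ _ := HahnSeries.map_add s.toAddMonoidHom

theorem cmap_coeff (s : F →+* F) (f : F⸨X⸩) (n : ℤ) : (cmap s f).coeff n = s (f.coeff n) := rfl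

theorem cmap_single (s : F →+* F) (n : ℤ) (c : F) :
    cmap s (HahnSeries.single n c) = HahnSeries.single n (s c) :=
  HahnSeries.map_single s.toZeroHom

theorem continuous_cmap (s : F →+* F) : Continuous (cmap s) := by
  refine continuous_of_continuousAt_zero (cmap s) ?_
  rw [ContinuousAt, map_zero, basis_zero.tendsto_iff basis_zero]
  intro d _
  refine ⟨d, trivial, fun x hx => ?_⟩
  rw [mem_ball_iff] at hx ⊢
  intro n hn
  rw [cmap_coeff, hx n hn, map_zero]

theorem val_single (n : ℤ) {c : F} (hc : c ≠ 0) :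
    Valued.v (HahnSeries.single n c : F⸨X⸩) = exp (-n) := by
  apply le_antisymm
  · refine mem_ball_iff.mpr fun m hm => ?_
    rw [HahnSeries.coeff_single_of_ne hm.ne]
  · by_contra h
    push Not at h
    have h1 : (HahnSeries.single n c : F⸨X⸩) ∈ ball F (n + 1) := by
      have h0 : Valued.v (HahnSeries.single n c : F⸨X⸩) ≠ (0 : ℤᵐ⁰) := by simpa using hc
      simp only [ball, Set.mem_ofPred_eq]
      rw [← exp_log h0, exp_lt_exp] at h
      rw [← exp_log h0, exp_le_exp]
      omega
    have := mem_ball_iff.mp h1 n (by omega)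
    rw [HahnSeries.coeff_single_same] at this
    exact hc this

end Laurent

section Final

/-- The field with four elements. -/
abbrev F4 : Type := GaloisField 2 2

theorem card_F4 : Nat.card F4 = 4 := by
  rw [GaloisField.card 2 2 (by norm_num)]
  norm_num

theorem frob_frob (x : F4) : frobenius F4 2 (frobenius F4 2 x) = x := by
  have := Fintype.ofFinite F4
  have h : Fintype.card F4 = 4 := by rw [← Nat.card_eq_fintype_card, card_F4]
  have := FiniteField.pow_card x
  rw [h] at this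
  simp only [frobenius_def]
  rw [← pow_mul]
  exact this

theorem exists_omega : ∃ w : F4, frobenius F4 2 w ≠ w := by
  classical
  by_contra h
  push Not at h
  have := Fintype.ofFinite F4
  have h1 : Fintype.card F4 = 4 := by rw [← Nat.card_eq_fintype_card, card_F4]
  have h2 : (Finset.univ : Finset F4) ⊆ {0, 1} := by
    intro x _
    have := h x
    rw [frobenius_def] at this
    have h3 : x * (x - 1) = 0 := by linear_combination this
    rcases mul_eq_zero.mp h3 with h4 | h4
    · simp [h4]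
    · simp [sub_eq_zero.mp h4]
  have h3 := Finset.card_le_card h2
  rw [Finset.card_univ, h1] at h3
  have := Finset.card_le_two (a := (0 : F4)) (b := 1)
  omega

instance charP_laurent : CharP F4⸨X⸩ 2 :=
  charP_of_injective_algebraMap (algebraMap F4 F4⸨X⸩).injective 2

theorem exists_data : ∃ (σ : F4⸨X⸩ →+* F4⸨X⸩) (_ : ∀ x, σ (σ x) = x)
    (χ : (F4⸨X⸩)ˣ →* Multiplicative (ZMod 2))
    (_ : ∀ x : (F4⸨X⸩)ˣ, χ (Units.map σ.toMonoidHom x) = χ x),
    Continuous σ ∧ (∃ w, σ w ≠ w) ∧ ∃ a : ℕ → (F4⸨X⸩)ˣ,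
      Tendsto (fun k => (a k : F4⸨X⸩)) atTop (𝓝 1) ∧ ∀ k, χ (a k) ≠ 1 := by
  obtain ⟨w, hw⟩ := exists_omega
  set s := frobenius F4 2 with hs
  have hw0 : w ≠ 0 := by
    rintro rfl
    simp at hw
  have hsw0 : s w ≠ 0 := by simpa using hw0
  have hsum : w + s w ≠ 0 := by
    intro h
    apply hw
    have h2 : (2 : F4) = 0 := CharP.cast_eq_zero F4 2
    linear_combination h - w * h2
  have hσ : ∀ x, cmap s (cmap s x) = x := by
    intro x
    ext n
    rw [cmap_coeff, cmap_coeff, frob_frob]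
  have hlt : ∀ k : ℕ, (exp (-(2 * (k : ℤ) + 1)) : ℤᵐ⁰) < 1 := by
    intro k
    rw [← exp_zero, exp_lt_exp]; omega
  have hne : ∀ k : ℕ, (1 + HahnSeries.single (2 * (k : ℤ) + 1) w : F4⸨X⸩) ≠ 0 := by
    intro k h
    have h1 : Valued.v (1 + HahnSeries.single (2 * (k : ℤ) + 1) w : F4⸨X⸩) = 1 :=
      Valuation.map_one_add_of_lt _ (by rw [val_single _ hw0]; exact hlt k)
    rw [h, map_zero] at h1
    exact zero_ne_one h1
  let a : ℕ → (F4⸨X⸩)ˣ := fun k => Units.mk0 _ (hne k)
  let N : (F4⸨X⸩)ˣ →* (F4⸨X⸩)ˣ := MonoidHom.id _ * Units.map (cmap s).toMonoidHom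
  have hN : ∀ x : (F4⸨X⸩)ˣ, (N x : F4⸨X⸩) = x * cmap s x := fun x => rfl
  obtain ⟨χ, hχ⟩ := exists_char (Valued.v : Valuation F4⸨X⸩ ℤᵐ⁰) (fun k => N (a k)) (by
    intro k
    have h1 : (N (a k) : F4⸨X⸩) - 1 = HahnSeries.single (2 * (k : ℤ) + 1) (w + s w) +
        HahnSeries.single (2 * (k : ℤ) + 1 + (2 * (k : ℤ) + 1)) (w * s w) := by
      rw [hN, ← HahnSeries.single_mul_single, HahnSeries.single_add]
      simp only [a, Units.val_mk0, map_add, map_one, cmap_single]
      ring
    rw [h1, Valuation.map_add_eq_of_lt_left, val_single _ hsum]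
    rw [val_single _ hsum, val_single _ (mul_ne_zero hw0 hsw0), exp_lt_exp]
    omega)
  refine ⟨cmap s, hσ, χ.comp N, ?_, continuous_cmap s, ⟨HahnSeries.single 0 w, ?_⟩, a, ?_, hχ⟩
  · intro x
    simp only [MonoidHom.comp_apply]
    congr 1
    ext1
    rw [hN, hN]
    simp only [RingHom.toMonoidHom_eq_coe, Units.coe_map, MonoidHom.coe_coe, hσ]
    ring
  · rw [cmap_single]
    intro h
    exact hw (HahnSeries.single_injective 0 h)
  · have h1 : Tendsto (fun k : ℕ => (HahnSeries.single (2 * (k : ℤ) + 1) w : F4⸨X⸩)) atTop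
        (𝓝 0) := by
      rw [basis_zero.tendsto_right_iff]
      intro d _
      filter_upwards [eventually_ge_atTop d.toNat] with k hk
      simp only [ball, Set.mem_ofPred_eq]
      rw [val_single _ hw0, exp_le_exp]
      omega
    have := h1.const_add 1
    rw [add_zero] at this
    exact this

theorem main : ∃ (M : Type) (_ : TopologicalSpace M) (_ : CompactSpace M) (_ : T2Space M)
    (G : Type) (_ : Group G) (_ : MulAction G M), Infinite M ∧
    (∀ g : G, IsHomeomorph fun x : M => g • x) ∧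
    (∀ s t : Triple M, ∃! g : G, act g s = t) ∧
    ∀ _τ : TopologicalSpace G, ¬ ∀ t : Triple M, IsHomeomorph fun g : G => act g t := by
  classical
  obtain ⟨σ, hσ, χ, hχ, hc, ⟨w, hw⟩, a, ha, hχa⟩ := exists_data
  have := weaklyLocallyCompact (F := F4)
  have : Infinite F4⸨X⸩ := Infinite.of_injective (fun n : ℤ => (HahnSeries.single n 1 : F4⸨X⸩)) (by
    intro m n h
    have := congrArg Valued.v h
    simp only [val_single _ (one_ne_zero (α := F4)), exp_inj] at this
    omega)
  exact ⟨OnePoint F4⸨X⸩, inferInstance, inferInstance, inferInstance, twisted σ hσ χ hχ,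
    inferInstance, inferInstance, inferInstance,
    twisted_homeo σ hσ χ hχ tendsto_inv_cocompact tendsto_inv_zero hc,
    twisted_sharp σ hσ χ hχ, twisted_no_top σ hσ χ hχ w hw a ha hχa⟩

end Final

end Pool.Agent.Work.MP_3e0647_al
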