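import Pool.Agent.Work.MP_3e0647_al.Defs
import Mathlib.Topology.Compactification.OnePoint.ProjectiveLine
import Mathlib.Topology.Algebra.Field
import Mathlib.Topology.Homeomorph.Lemmas
import Mathlib.Data.ZMod.Basic

/-! Twisted projective groups over a topological field. -/

set_option autoImplicit false

namespace Pool.Agent.Work.MP_3e0647_al

open OnePoint Filter Topology Matrix

section Algebra

variable {K : Type} [Field K] [DecidableEq K]

/-- upper triangular matrix -/
noncomputable def aff (a b : K) (ha : a ≠ 0) : GL (Fin 2) K :=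
  GeneralLinearGroup.mkOfDetNeZero !![a, b; 0, 1] (by simpa [det_fin_two] using ha)

/-- the flip -/
noncomputable def flip (K : Type) [Field K] : GL (Fin 2) K :=
  GeneralLinearGroup.mkOfDetNeZero !![0, 1; 1, 0] (by simp [det_fin_two])

theorem aff_infty (a b : K) (ha : a ≠ 0) : aff a b ha • (∞ : OnePoint K) = ∞ := by
  simp [smul_infty_eq_ite, aff]

theorem aff_coe (a b : K) (ha : a ≠ 0) (x : K) :
    aff a b ha • (x : OnePoint K) = ((a * x + b : K) : OnePoint K) := by
  simp [smul_some_eq_ite, aff]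

omit [DecidableEq K] in
theorem det_aff (a b : K) (ha : a ≠ 0) :
    ((GeneralLinearGroup.det (aff a b ha) : Kˣ) : K) = a := by
  simp [aff, det_fin_two]

theorem flip_infty : flip K • (∞ : OnePoint K) = ((0 : K) : OnePoint K) := by
  simp [smul_infty_eq_ite, flip]

theorem flip_coe (x : K) :
    flip K • (x : OnePoint K) = if x = 0 then ∞ else ((x⁻¹ : K) : OnePoint K) := by
  simp [smul_some_eq_ite, flip]

theorem exists_infty (z : OnePoint K) : ∃ g : GL (Fin 2) K, g • (∞ : OnePoint K) = z ∧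
    (g = 1 ∨ ∃ c : K, g = aff 1 c one_ne_zero * flip K) := by
  cases z with
  | infty => exact ⟨1, one_smul _ _, Or.inl rfl⟩
  | coe c =>
    refine ⟨aff 1 c one_ne_zero * flip K, ?_, Or.inr ⟨c, rfl⟩⟩
    rw [mul_smul, flip_infty, aff_coe]
    simp

theorem exists_triple (x y z : OnePoint K) (hxy : x ≠ y) (hxz : x ≠ z) (hyz : y ≠ z) :
    ∃ g : GL (Fin 2) K, g • ((0 : K) : OnePoint K) = x ∧ g • ((1 : K) : OnePoint K) = y ∧
      g • (∞ : OnePoint K) = z := by
  obtain ⟨g, hg, -⟩ := exists_infty z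
  have hx : g⁻¹ • x ≠ ∞ := by
    intro h
    apply hxz
    rw [← hg, ← h, smul_inv_smul]
  have hy : g⁻¹ • y ≠ ∞ := by
    intro h
    apply hyz
    rw [← hg, ← h, smul_inv_smul]
  obtain ⟨x', hx'⟩ := ne_infty_iff_exists.mp hx
  obtain ⟨y', hy'⟩ := ne_infty_iff_exists.mp hy
  have hne : y' - x' ≠ 0 := by
    intro h
    apply hxy
    rw [sub_eq_zero] at h
    rw [← smul_inv_smul g x, ← hx', ← h, hy', smul_inv_smul]
  refine ⟨g * aff (y' - x') x' hne, ?_, ?_, ?_⟩
  · rw [mul_smul, aff_coe, mul_zero, zero_add, hx', smul_inv_smul]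
  · rw [mul_smul, aff_coe, mul_one, sub_add_cancel, hy', smul_inv_smul]
  · rw [mul_smul, aff_infty, hg]

omit [DecidableEq K] in
theorem diag_ne_zero {g : GL (Fin 2) K} (h : g 1 0 = 0) : g 0 0 ≠ 0 ∧ g 1 1 ≠ 0 := by
  have := g.det_ne_zero
  rw [det_fin_two, h, mul_zero, sub_zero] at this
  exact ⟨left_ne_zero_of_mul this, right_ne_zero_of_mul this⟩

theorem fix_triple (g : GL (Fin 2) K) (h0 : g • ((0 : K) : OnePoint K) = ((0 : K) : OnePoint K))
    (h1 : g • ((1 : K) : OnePoint K) = ((1 : K) : OnePoint K)) (hi : g • (∞ : OnePoint K) = ∞) :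
    (∀ x : OnePoint K, g • x = x) ∧ ∃ u : Kˣ, GeneralLinearGroup.det g = u * u := by
  have hc : g 1 0 = 0 := smul_infty_eq_self_iff.mp hi
  obtain ⟨ha, hd⟩ := diag_ne_zero hc
  have hb : g 0 1 = 0 := by
    rw [smul_some_eq_ite] at h0
    simpa [hc, hd] using h0
  have had : g 0 0 = g 1 1 := by
    rw [smul_some_eq_ite] at h1
    simp only [hc, mul_one, zero_add, hd, if_false, hb, add_zero, coe_eq_coe] at h1
    exact (div_eq_one_iff_eq hd).mp h1
  constructor
  · intro x
    cases x with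
    | infty => exact hi
    | coe x =>
      rw [smul_some_eq_ite]
      simp only [hc, zero_mul, zero_add, hd, if_false, hb, add_zero, coe_eq_coe, had]
      field_simp
  · refine ⟨Units.mk0 _ hd, ?_⟩
    ext
    simp [det_fin_two, hc, had]

end Algebra

section Top

variable {K : Type} [Field K] [DecidableEq K] [TopologicalSpace K] [IsTopologicalDivisionRing K]
  [T2Space K]

omit [T2Space K] in
theorem continuous_upper (g : GL (Fin 2) K) (hc : g 1 0 = 0) :
    Continuous fun x : OnePoint K => g • x := by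
  obtain ⟨ha, hd⟩ := diag_ne_zero hc
  let e : K ≃ₜ K := ((Homeomorph.mulLeft₀ (g 0 0) ha).trans (Homeomorph.addRight (g 0 1))).trans
    (Homeomorph.mulRight₀ (g 1 1)⁻¹ (inv_ne_zero hd))
  have : (fun x : OnePoint K => g • x) = e.onePointCongr := by
    funext x
    cases x with
    | infty => exact smul_infty_eq_self_iff.mpr hc
    | coe x =>
      rw [smul_some_eq_ite]
      simp [hc, hd, e, div_eq_mul_inv]
  rw [this]
  exact e.onePointCongr.continuous

theorem continuous_flip (h1 : Tendsto (fun x : K => x⁻¹) (cocompact K) (𝓝 0))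
    (h2 : Tendsto (fun x : K => x⁻¹) (𝓝[≠] 0) (cocompact K)) :
    Continuous fun x : OnePoint K => flip K • x := by
  rw [continuous_iff_continuousAt]
  intro x
  cases x with
  | infty =>
    rw [continuousAt_infty', flip_infty, coclosedCompact_eq_cocompact]
    have h3 : Tendsto (fun x : K => ((x⁻¹ : K) : OnePoint K)) (cocompact K)
        (𝓝 ((0 : K) : OnePoint K)) := (continuous_coe.tendsto 0).comp h1
    refine h3.congr' ?_
    have : {(0 : K)}ᶜ ∈ cocompact K := isCompact_singleton.compl_mem_cocompact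
    filter_upwards [this] with x hx
    simp only [Function.comp, flip_coe]
    rw [if_neg (show ¬ x = 0 from hx)]
  | coe x =>
    rw [continuousAt_coe]
    by_cases hx : x = 0
    · subst hx
      rw [continuousAt_iff_punctured_nhds]
      simp only [Function.comp, flip_coe, if_true]
      have h3 : Tendsto (fun x : K => ((x⁻¹ : K) : OnePoint K)) (𝓝[≠] 0) (𝓝 ∞) := by
        refine tendsto_coe_infty.comp ?_
        rwa [coclosedCompact_eq_cocompact]
      refine h3.congr' ?_
      filter_upwards [self_mem_nhdsWithin] with x hx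
      simp only [Function.comp, flip_coe]
      rw [if_neg (show ¬ x = 0 from hx)]
    · have h3 : ContinuousAt (fun x : K => ((x⁻¹ : K) : OnePoint K)) x :=
        continuous_coe.continuousAt.comp (continuousAt_inv₀ hx)
      refine h3.congr ?_
      filter_upwards [isOpen_compl_singleton.mem_nhds hx] with y hy
      simp only [Function.comp, flip_coe]
      rw [if_neg (show ¬ y = 0 from hy)]

theorem continuous_gl (h1 : Tendsto (fun x : K => x⁻¹) (cocompact K) (𝓝 0))
    (h2 : Tendsto (fun x : K => x⁻¹) (𝓝[≠] 0) (cocompact K)) (g : GL (Fin 2) K) :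
    Continuous fun x : OnePoint K => g • x := by
  obtain ⟨g', hg', hh⟩ := exists_infty (g • (∞ : OnePoint K))
  have hc : (g'⁻¹ * g) 1 0 = 0 := by
    rw [← smul_infty_eq_self_iff, mul_smul, ← hg', inv_smul_smul]
  have h3 := continuous_upper _ hc
  have h4 : Continuous fun x : OnePoint K => g' • x := by
    rcases hh with rfl | ⟨c, rfl⟩
    · simpa using continuous_id'
    · simp only [mul_smul]
      exact (continuous_upper _ (by simp [aff])).comp (continuous_flip h1 h2)
  have := h4.comp h3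
  refine this.congr fun x => ?_
  simp [mul_smul]

end Top

section Twist

variable {K : Type} [Field K] [DecidableEq K] (σ : K →+* K) (hσ : ∀ x, σ (σ x) = x)
  (χ : Kˣ →* Multiplicative (ZMod 2)) (hχ : ∀ x : Kˣ, χ (Units.map σ.toMonoidHom x) = χ x)

/-- the involution of the projective line induced by `σ` -/
def tw : Equiv.Perm (OnePoint K) :=
  Function.Involutive.toPerm (OnePoint.map σ) (by
    intro x
    cases x with
    | infty => rfl
    | coe x => simp [hσ])

omit [DecidableEq K] in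
theorem tw_apply (x : OnePoint K) : tw σ hσ x = OnePoint.map σ x := rfl

omit [DecidableEq K] in
theorem tw_mul_tw : tw σ hσ * tw σ hσ = 1 := by
  ext x
  cases x with
  | infty => rfl
  | coe x => simp [tw_apply, hσ]

/-- Moebius maps as permutations -/
noncomputable def mob : GL (Fin 2) K →* Equiv.Perm (OnePoint K) := MulAction.toPermHom _ _

theorem mob_apply (g : GL (Fin 2) K) (x : OnePoint K) : mob g x = g • x := rfl

theorem tw_mul_mob (g : GL (Fin 2) K) : tw σ hσ * mob g = mob (g.map σ) * tw σ hσ := by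
  ext x
  simp only [Equiv.Perm.coe_mul, Function.comp, tw_apply, mob_apply, OnePoint.map_smul]

/-- the sign of a matrix -/
noncomputable def sg (g : GL (Fin 2) K) : Multiplicative (ZMod 2) := χ (GeneralLinearGroup.det g)

theorem two_cases (a b : Multiplicative (ZMod 2)) :
    (a * b = 1 ↔ (a = 1 ↔ b = 1)) ∧ a * a = 1 := by
  revert a b
  decide

omit [DecidableEq K] in
theorem sg_mul (g h : GL (Fin 2) K) : sg χ (g * h) = 1 ↔ (sg χ g = 1 ↔ sg χ h = 1) := by
  simp only [sg, map_mul]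
  exact (two_cases _ _).1

omit [DecidableEq K] in
theorem sg_inv (g : GL (Fin 2) K) : sg χ g⁻¹ = 1 ↔ sg χ g = 1 := by
  simp only [sg, map_inv, inv_eq_one]

omit [DecidableEq K] in
include hχ in
theorem sg_map (g : GL (Fin 2) K) : sg χ (g.map σ) = sg χ g := by
  simp only [sg]
  rw [← hχ (GeneralLinearGroup.det g)]
  congr 1
  ext
  simp [det_fin_two]

/-- The twisted group. -/
def twisted : Subgroup (Equiv.Perm (OnePoint K)) where
  carrier := {φ | ∃ g : GL (Fin 2) K,
    (sg χ g = 1 ∧ φ = mob g) ∨ (¬ sg χ g = 1 ∧ φ = mob g * tw σ hσ)}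
  one_mem' := ⟨1, Or.inl ⟨by simp [sg], by simp⟩⟩
  mul_mem' := by
    rintro _ _ ⟨g, ⟨hg, rfl⟩ | ⟨hg, rfl⟩⟩ ⟨h, ⟨hh, rfl⟩ | ⟨hh, rfl⟩⟩
    · exact ⟨g * h, Or.inl ⟨by rw [sg_mul]; tauto, by rw [map_mul]⟩⟩
    · exact ⟨g * h, Or.inr ⟨by rw [sg_mul]; tauto, by rw [map_mul, mul_assoc]⟩⟩
    · refine ⟨g * h.map σ, Or.inr ⟨by rw [sg_mul, sg_map σ χ hχ]; tauto, ?_⟩⟩
      rw [map_mul, mul_assoc, tw_mul_mob, mul_assoc]
    · refine ⟨g * h.map σ, Or.inl ⟨by rw [sg_mul, sg_map σ χ hχ]; tauto, ?_⟩⟩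
      rw [map_mul, mul_assoc, ← mul_assoc (tw σ hσ), tw_mul_mob, mul_assoc, tw_mul_tw, mul_one]
  inv_mem' := by
    rintro _ ⟨g, ⟨hg, rfl⟩ | ⟨hg, rfl⟩⟩
    · exact ⟨g⁻¹, Or.inl ⟨(sg_inv χ g).mpr hg, by rw [map_inv]⟩⟩
    · refine ⟨g⁻¹.map σ, Or.inr ⟨by rw [sg_map σ χ hχ, sg_inv]; exact hg, ?_⟩⟩
      rw [_root_.mul_inv_rev, ← tw_mul_mob, map_inv, inv_eq_of_mul_eq_one_right (tw_mul_tw σ hσ)]

/-- the base triple -/
def base (K : Type) [Field K] : Triple (OnePoint K) :=
  ⟨(((0 : K) : OnePoint K), ((1 : K) : OnePoint K), ∞), by simp, by simp, by simp⟩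

theorem act_mul {G M : Type} [Group G] [MulAction G M] (g h : G) (t : Triple M) :
    act (g * h) t = act g (act h t) := by
  simp [act, mul_smul]

theorem act_one {G M : Type} [Group G] [MulAction G M] (t : Triple M) : act (1 : G) t = t := by
  simp [act]

theorem twisted_smul (φ : twisted σ hσ χ hχ) (x : OnePoint K) : φ • x = φ.1 x := rfl

theorem twisted_trans (t : Triple (OnePoint K)) :
    ∃ φ : twisted σ hσ χ hχ, act φ (base K) = t := by
  obtain ⟨⟨x, y, z⟩, hxy, hxz, hyz⟩ := t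
  obtain ⟨g, h0, h1, hi⟩ := exists_triple x y z hxy hxz hyz
  by_cases hg : sg χ g = 1
  · refine ⟨⟨mob g, g, Or.inl ⟨hg, rfl⟩⟩, ?_⟩
    simp [act, base, twisted_smul, mob_apply, h0, h1, hi]
  · refine ⟨⟨mob g * tw σ hσ, g, Or.inr ⟨hg, rfl⟩⟩, ?_⟩
    simp [act, base, twisted_smul, mob_apply, tw_apply, h0, h1, hi]

theorem twisted_free (φ : twisted σ hσ χ hχ) (h : act φ (base K) = base K) : φ = 1 := by
  obtain ⟨_, g, ⟨hg, rfl⟩ | ⟨hg, rfl⟩⟩ := φ
  · simp only [act, base, twisted_smul, mob_apply, Subtype.mk.injEq, Prod.mk.injEq] at h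
    apply Subtype.ext
    ext x
    exact (fix_triple g h.1 h.2.1 h.2.2).1 x
  · exfalso
    simp only [act, base, twisted_smul, Equiv.Perm.coe_mul, Function.comp, mob_apply, tw_apply,
      map_some, map_zero, map_one, map_infty, Subtype.mk.injEq, Prod.mk.injEq] at h
    obtain ⟨u, hu⟩ := (fix_triple g h.1 h.2.1 h.2.2).2
    apply hg
    rw [sg, hu, map_mul]
    exact (two_cases _ 1).2

theorem twisted_sharp (s t : Triple (OnePoint K)) :
    ∃! φ : twisted σ hσ χ hχ, act φ s = t := by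
  obtain ⟨a, rfl⟩ := twisted_trans σ hσ χ hχ s
  obtain ⟨b, rfl⟩ := twisted_trans σ hσ χ hχ t
  refine ⟨b * a⁻¹, ?_, ?_⟩
  · simp only [← act_mul, inv_mul_cancel_right]
  · intro φ hφ
    have : act (b⁻¹ * φ * a) (base K) = base K := by
      rw [act_mul, act_mul, hφ, ← act_mul, inv_mul_cancel, act_one]
    have h2 := twisted_free σ hσ χ hχ _ this
    rw [mul_assoc, inv_mul_eq_one] at h2
    rw [h2, mul_inv_cancel_right]

variable [TopologicalSpace K] [IsTopologicalDivisionRing K] [T2Space K]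

theorem twisted_continuous (h1 : Tendsto (fun x : K => x⁻¹) (cocompact K) (𝓝 0))
    (h2 : Tendsto (fun x : K => x⁻¹) (𝓝[≠] 0) (cocompact K)) (hc : Continuous σ)
    (φ : twisted σ hσ χ hχ) : Continuous fun x : OnePoint K => φ • x := by
  have htw : Continuous (tw σ hσ) := by
    let e : K ≃ₜ K := Homeomorph.mk (Function.Involutive.toPerm σ hσ) hc hc
    exact e.onePointCongr.continuous
  obtain ⟨_, g, ⟨hg, rfl⟩ | ⟨hg, rfl⟩⟩ := φ
  · exact continuous_gl h1 h2 g
  · exact (continuous_gl h1 h2 g).comp htw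

theorem twisted_homeo (h1 : Tendsto (fun x : K => x⁻¹) (cocompact K) (𝓝 0))
    (h2 : Tendsto (fun x : K => x⁻¹) (𝓝[≠] 0) (cocompact K)) (hc : Continuous σ)
    (φ : twisted σ hσ χ hχ) : IsHomeomorph fun x : OnePoint K => φ • x := by
  rw [isHomeomorph_iff_exists_inverse]
  exact ⟨twisted_continuous σ hσ χ hχ h1 h2 hc φ, fun x => φ⁻¹ • x, fun x => inv_smul_smul φ x,
    fun x => smul_inv_smul φ x, twisted_continuous σ hσ χ hχ h1 h2 hc φ⁻¹⟩

theorem twisted_no_top [WeaklyLocallyCompactSpace K] (w : K) (hw : σ w ≠ w) (a : ℕ → Kˣ)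
    (ha : Tendsto (fun k => (a k : K)) atTop (𝓝 1)) (hχa : ∀ k, χ (a k) ≠ 1)
    (τ : TopologicalSpace (twisted σ hσ χ hχ)) :
    ¬ ∀ t : Triple (OnePoint K), IsHomeomorph fun φ : twisted σ hσ χ hχ => act φ t := by
  intro H
  have hw0 : w ≠ 0 := by
    rintro rfl
    simp at hw
  have hsg : ∀ k, ¬ sg χ (aff (a k : K) 0 (a k).ne_zero) = 1 := by
    intro k
    have : GeneralLinearGroup.det (aff (a k : K) 0 (a k).ne_zero) = a k :=
      Units.ext (det_aff _ _ _)
    rw [sg, this]
    exact hχa k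
  let φ : ℕ → twisted σ hσ χ hχ := fun k =>
    ⟨mob (aff (a k : K) 0 (a k).ne_zero) * tw σ hσ, _, Or.inr ⟨hsg k, rfl⟩⟩
  have hφc : ∀ k (x : K), φ k • (x : OnePoint K) = (((a k : K) * σ x : K) : OnePoint K) := by
    intro k x
    simp [φ, twisted_smul, mob_apply, tw_apply, aff_coe]
  have hφi : ∀ k, φ k • (∞ : OnePoint K) = ∞ := by
    intro k
    simp [φ, twisted_smul, mob_apply, tw_apply, aff_infty]
  have hlim : Tendsto φ atTop (𝓝 1) := by
    rw [(H (base K)).isInducing.tendsto_nhds_iff, act_one, tendsto_subtype_rng]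
    simp only [Function.comp, act, base, hφc, hφi, map_zero, map_one, mul_zero, mul_one]
    exact tendsto_const_nhds.prodMk_nhds
      (((continuous_coe.tendsto 1).comp ha).prodMk_nhds tendsto_const_nhds)
  let t : Triple (OnePoint K) :=
    ⟨(((0 : K) : OnePoint K), ((w : K) : OnePoint K), ∞), by simpa using hw0.symm, by simp, by simp⟩
  have h3 := ((H t).continuous.tendsto 1).comp hlim
  rw [act_one] at h3
  have h4 : Tendsto (fun k => (act (φ k) t).1.2.1) atTop (𝓝 ((w : K) : OnePoint K)) :=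
    ((continuous_fst.comp (continuous_snd.comp continuous_subtype_val)).tendsto t).comp h3
  simp only [act, t, hφc] at h4
  have h5 : Tendsto (fun k => (((a k : K) * σ w : K) : OnePoint K)) atTop
      (𝓝 ((σ w : K) : OnePoint K)) := by
    have := ha.mul_const (σ w)
    rw [one_mul] at this
    exact (continuous_coe.tendsto _).comp this
  exact hw (coe_eq_coe.mp (tendsto_nhds_unique h5 h4))

end Twist

end Pool.Agent.Work.MP_3e0647_al
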